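import Mathlib
import Pool.Agent.H.MP_8f6377_al.Hopf

set_option autoImplicit false

namespace Pool.Agent.Results.MP_8f6377_al.NotBijective

open Pool.Agent.H.MP_8f6377_al

/-- There is a Hopf algebra over `ℂ`, finitely generated as an algebra, whose antipode is not
injective (so not bijective). -/
theorem result : ∃ (K : Type) (_ : Ring K) (_ : HopfAlgebra ℂ K),
    Algebra.FiniteType ℂ K ∧ ¬ Function.Injective (HopfAlgebra.antipode ℂ (A := K)) := by
  refine ⟨H, inferInstance, inferInstance, ⟨(Subalgebra.fg_def).2 ⟨_, Set.finite_range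
    fun p : N × N => g 0 p.1 p.2, eq_top_iff.2 fun a _ => ?_⟩⟩, fun h => c_ne (h ?_)⟩
  · induction a using H_ind with
    | h0 c => exact Subalgebra.algebraMap_mem _ c
    | h1 r p q => exact g_mem r p q
    | hm a b p q => exact mul_mem (p trivial) (q trivial)
    | ha a b p q => exact add_mem (p trivial) (q trivial)
  · exact S_c.trans (map_zero _).symm

end Pool.Agent.Results.MP_8f6377_al.NotBijective
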